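import Pool.Agent.W622.BK.Stm

set_option autoImplicit false

namespace Pool.Agent.W538.BK

open Module Set Set.powersetCard

universe u

theorem t_NZB : Pool.Agent.W622.BK.S_NZB.{u} := by
  intro k _ E _ _ N m b ω w
  classical
  set ω' := exteriorPower.alternatingMapLinearEquiv ω with hω'
  have h1 : ∀ a : Fin m → E, ω' (exteriorPower.ιMulti k m a) = ω a := fun a =>
    exteriorPower.alternatingMapLinearEquiv_apply_ιMulti ω a
  rw [← h1 w]
  conv_lhs => rw [← (b.exteriorPower m).sum_repr (exteriorPower.ιMulti k m w)]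
  rw [map_sum, ← Equiv.sum_comp (ofFinEmbEquiv (I := Fin N) (n := m))]
  refine Finset.sum_congr rfl fun I _ => ?_
  rw [map_smul, exteriorPower.basis_repr_apply, exteriorPower.ιMultiDual_apply_ιMulti,
    Equiv.symm_apply_apply, exteriorPower.basis_apply, exteriorPower.ιMulti_family, h1,
    Equiv.symm_apply_apply, smul_eq_mul, mul_comm, ← Matrix.det_transpose]
  rfl

end Pool.Agent.W538.BK
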